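import Pool.Agent.ER.Defs

/-!
# Long and short edges on complete bipartite graphs: the decision problem
-/

namespace Pool.Agent.Y604.LS

/-- The length of the segment between two points of the plane. -/
noncomputable def len (p q : ℝ × ℝ) : ℝ := Real.sqrt ((p.1 - q.1) ^ 2 + (p.2 - q.2) ^ 2)

/-- Instances `(A, B, S)`: the two classes `A`, `B` of vertices of a complete bipartite graph and
the set `S` of its short edges (pairs consisting of a vertex of `A` and a vertex of `B`); all other
edges are long. -/
abbrev Inst : Type := List ℕ × List ℕ × List (ℕ × ℕ)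

/-- Well-formed instances: the classes `A` and `B` are disjoint and `S` is a subset of `A × B`. -/
def IsInst (G : Inst) : Prop :=
  (∀ a ∈ G.1, a ∉ G.2.1) ∧ ∀ e ∈ G.2.2, e.1 ∈ G.1 ∧ e.2 ∈ G.2.1

/-- `p` is a straight-line drawing of the complete bipartite graph (distinct vertices are mapped to
distinct points, and no vertex lies on an edge other than its own edges; crossings are allowed) in
which the edges of length at most `1` are exactly the short ones. -/
structure Realizes (G : Inst) (p : ℕ → ℝ × ℝ) : Prop where
  inj : ∀ u ∈ G.1 ++ G.2.1, ∀ v ∈ G.1 ++ G.2.1, p u = p v → u = v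
  avoid : ∀ a ∈ G.1, ∀ b ∈ G.2.1, ∀ w ∈ G.1 ++ G.2.1, w ≠ a → w ≠ b →
    p w ∉ segment ℝ (p a) (p b)
  short : ∀ a ∈ G.1, ∀ b ∈ G.2.1, (a, b) ∈ G.2.2 ↔ len (p a) (p b) ≤ 1

/-- Long/short edge realizability for complete bipartite graphs. -/
def LongShortBipartite (G : Inst) : Prop := IsInst G ∧ ∃ p, Realizes G p

end Pool.Agent.Y604.LS
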