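import Pool.Agent.H606R2.GPP.Exist
import Pool.Agent.Y604.LS.Defs

/-!
# Perturbation into general position, and the disks of a line
-/

namespace Pool.Agent.Y604.LS

open Pool.Agent.NPC Pool.Agent.NPC.ER.Pat Pool.Agent.NPC.ER.GPP Filter
open scoped Topology

/-- The perturbed points. -/
noncomputable def pert (p : ℕ → ℝ × ℝ) (δ : ℝ) (v : ℕ) : ℝ × ℝ :=
  ((p v).1 + δ * v, (p v).2 + δ * (v : ℝ) ^ 2)

theorem ev_quad_ne {a b c : ℝ} (hc : c ≠ 0) :
    ∀ᶠ δ in 𝓝[>] (0 : ℝ), a + δ * b + δ ^ 2 * c ≠ 0 := by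
  by_cases ha : a = 0
  · filter_upwards [self_mem_nhdsWithin, ev_ne (a := b) (Or.inr hc)] with δ hδ h1
    have hδ' : (0 : ℝ) < δ := hδ
    have e : a + δ * b + δ ^ 2 * c = δ * (b + δ * c) := by rw [ha]; ring
    rw [e]
    exact mul_ne_zero hδ'.ne' h1
  · have h1 : Tendsto (fun δ : ℝ => a + δ * b + δ ^ 2 * c) (𝓝[>] (0 : ℝ))
        (𝓝 (a + 0 * b + 0 ^ 2 * c)) := by
      apply Tendsto.mono_left _ nhdsWithin_le_nhds
      apply Continuous.tendsto
      fun_prop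
    exact h1.eventually (p := fun t => t ≠ 0) (isOpen_ne.mem_nhds (by simpa using ha))

theorem ev_gp (p : ℕ → ℝ × ℝ) (n : ℕ) : ∀ᶠ δ in 𝓝[>] (0 : ℝ),
    (∀ u < n, ∀ v < n, u ≠ v → pert p δ u ≠ pert p δ v) ∧
    ∀ u < n, ∀ v < n, ∀ w < n, u ≠ v → u ≠ w → v ≠ w →
      D (pert p δ u) (pert p δ v) (pert p δ w) ≠ 0 := by
  apply Filter.Eventually.and
  · refine ev_all fun u hu => ev_all fun v hv => ?_
    by_cases huv : u = v
    · exact Eventually.of_forall fun _ h => absurd huv h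
    · have h3 : (u : ℝ) - v ≠ 0 := by
        rw [sub_ne_zero]
        exact_mod_cast huv
      filter_upwards [ev_ne (a := (p u).1 - (p v).1) (Or.inr h3)] with δ hδ _ h4
      apply hδ
      have h5 := congrArg Prod.fst h4
      simp only [pert] at h5
      linarith
  · refine ev_all fun u hu => ev_all fun v hv => ev_all fun w hw => ?_
    by_cases huv : u = v
    · exact Eventually.of_forall fun _ h => absurd huv h
    by_cases huw : u = w
    · exact Eventually.of_forall fun _ _ h => absurd huw h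
    by_cases hvw : v = w
    · exact Eventually.of_forall fun _ _ _ h => absurd hvw h
    have h1 : (v : ℝ) - u ≠ 0 := by rw [sub_ne_zero]; exact_mod_cast Ne.symm huv
    have h2 : (w : ℝ) - u ≠ 0 := by rw [sub_ne_zero]; exact_mod_cast Ne.symm huw
    have h3 : (w : ℝ) - v ≠ 0 := by rw [sub_ne_zero]; exact_mod_cast Ne.symm hvw
    have hc : ((v : ℝ) - u) * (w - u) * (w - v) ≠ 0 := mul_ne_zero (mul_ne_zero h1 h2) h3
    filter_upwards [ev_quad_ne (a := D (p u) (p v) (p w))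
      (b := ((p v).1 - (p u).1) * ((w : ℝ) ^ 2 - u ^ 2) + ((v : ℝ) - u) * ((p w).2 - (p u).2) -
        ((p v).2 - (p u).2) * ((w : ℝ) - u) - ((v : ℝ) ^ 2 - u ^ 2) * ((p w).1 - (p u).1)) hc]
      with δ hδ _ _ _ h4
    apply hδ
    rw [← h4]
    simp only [D, pert]
    ring

/-- The centres of the disks of a line, and the points. -/
theorem ev_disk (x y a b c : ℝ) (hab : a ^ 2 + b ^ 2 = 1) (s : Bool)
    (h : 0 < sgn s * (c + (x * a + y * b))) : ∀ᶠ ε in 𝓝[>] (0 : ℝ),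
      0 < sgn s * (1 - ((ε * x - (1 - ε * c) * a) ^ 2 + (ε * y - (1 - ε * c) * b) ^ 2)) ∧
      0 < -sgn s * (1 - ((ε * x + (1 + ε * c) * a) ^ 2 + (ε * y + (1 + ε * c) * b) ^ 2)) := by
  have h1 := ev_pos (a := 2 * (sgn s * (c + (x * a + y * b))))
    (-(sgn s * (x ^ 2 + y ^ 2 + c ^ 2 + 2 * c * (x * a + y * b)))) (by linarith)
  have h2 := ev_pos (a := 2 * (sgn s * (c + (x * a + y * b))))
    (sgn s * (x ^ 2 + y ^ 2 + c ^ 2 + 2 * c * (x * a + y * b))) (by linarith)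
  filter_upwards [self_mem_nhdsWithin, h1, h2] with ε hε k1 k2
  have hε' : (0 : ℝ) < ε := hε
  have e1 : sgn s * (1 - ((ε * x - (1 - ε * c) * a) ^ 2 + (ε * y - (1 - ε * c) * b) ^ 2)) =
      ε * (2 * (sgn s * (c + (x * a + y * b))) +
        ε * (-(sgn s * (x ^ 2 + y ^ 2 + c ^ 2 + 2 * c * (x * a + y * b))))) := by
    linear_combination (-(sgn s * (1 - ε * c) ^ 2)) * hab
  have e2 : -sgn s * (1 - ((ε * x + (1 + ε * c) * a) ^ 2 + (ε * y + (1 + ε * c) * b) ^ 2)) =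
      ε * (2 * (sgn s * (c + (x * a + y * b))) +
        ε * (sgn s * (x ^ 2 + y ^ 2 + c ^ 2 + 2 * c * (x * a + y * b)))) := by
    linear_combination (sgn s * (1 + ε * c) ^ 2) * hab
  rw [e1, e2]
  exact ⟨mul_pos hε' k1, mul_pos hε' k2⟩

end Pool.Agent.Y604.LS
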