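import Pool.Agent.Y604.LS.Red
import Pool.Agent.H606R2.GPP.Member
import Pool.Agent.H612.PatOf

/-!
# Long/short edge realizability for complete bipartite graphs is `∃ℝ`-complete
-/

namespace Pool.Agent.NPC.Y604LS

open Pool.Agent.NPC Pool.Agent.NPC.ER Pool.Agent.Y604.LS
open Pool.Agent.NPC.ER.Pat (IsPatOf matOf rect_matOf ent wid upoly_wid poly_ent)
open Pool.Agent.NPC.ER.GPP (vx subT neF avF holds_neF holds_avF poly_neF poly_avF poly_subT
  poly_two)
open Pool.Agent.NPC.H670R2 (ff tt conj holds_ff holds_tt holds_conj poly_conj poly_tvar poly_tadd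
  poly_tmul poly_tneg poly_eq poly_lt poly_not poly_and poly_or poly_le not_etr_ff)

/-! ### Hardness -/

section

variable {α : Type} [TEnc α]

theorem poly_rowS {M : α → List (List Bool)} {i : α → ℕ} (hM : Poly M) (hi : Poly i) :
    Poly (fun a => rowS (M a) (i a)) := by
  unfold rowS
  have hw : UPoly (fun a => 2 * wid (M a)) := UPoly.mul (UPoly.const 2) (upoly_wid hM)
  have k : Poly (fun p : α × ℕ => p.2) := Poly.snd Poly.id
  have a1 : Poly (fun p : α × ℕ => p.1) := Poly.fst Poly.id
  refine Poly.map (F := fun a k => (2 * i a, 2 * k + 1)) (Poly.filter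
    (p := fun a k => ent (M a) (i a) (k / 2) == decide (k % 2 = 0)) hw.range ?_) ?_
  · have h1 : Poly (fun p : α × ℕ => ent (M p.1) (i p.1) (p.2 / 2)) :=
      poly_ent (hM.comp a1) (hi.comp a1) (Poly.div k (Poly.const 2))
    have h2 : Poly (fun p : α × ℕ => decide (p.2 % 2 = 0)) :=
      Poly.decide_eq (Poly.mod k (Poly.const 2)) (Poly.const 0)
    exact (Poly.decide_eq h1 h2).congr fun p => by
      cases ent (M p.1) (i p.1) (p.2 / 2) <;> cases decide (p.2 % 2 = 0) <;> rfl
  · exact Poly.pair (poly_two (hi.comp a1)) (Poly.succ (poly_two k))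

theorem poly_redM : Poly redM := by
  have hM : Poly (fun M : List (List Bool) => M) := Poly.id
  have hw : UPoly (fun M : List (List Bool) => 2 * wid M) :=
    UPoly.mul (UPoly.const 2) (upoly_wid hM)
  refine Poly.pair ?_ (Poly.pair ?_ ?_)
  · exact Poly.map (F := fun _ i => 2 * i) (Poly.range_length hM) (poly_two (Poly.snd Poly.id))
  · exact Poly.map (F := fun _ k => 2 * k + 1) hw.range
      (Poly.succ (poly_two (Poly.snd Poly.id)))
  · exact Poly.flatMap (F := fun M i => rowS M i) (Poly.range_length hM)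
      (poly_rowS (Poly.fst Poly.id) (Poly.snd Poly.id))

end

theorem isPatOf : IsPatOf Sgn.patOf where
  poly := Sgn.poly_patOf Poly.id
  wf := Sgn.patOf_wf
  sound := fun _ h => Sgn.patOf_sound h
  complete := fun _ h => Sgn.patOf_complete h

theorem hard : ERHard (lang LongShortBipartite) := by
  refine ERHard.of_sys (f := fun S => redM (matOf Sgn.patOf 0 S))
    (poly_redM.comp (isPatOf.poly_matOf 0)) fun S => ?_
  obtain ⟨m, hm⟩ := rect_matOf Sgn.patOf 0 S
  constructor
  · intro hS
    exact ⟨isInst_redM _, realizes_of_SRN hm (isPatOf.srn (k := 0) hS)⟩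
  · rintro ⟨-, p, hp⟩
    exact isPatOf.sat (k := 0) (SR_of_realizes hm hp)

/-! ### Membership -/

/-- The edge is short. -/
def leF (u v : ℕ) : Fm :=
  Fm.le (Tm.add (Tm.mul (subT (2 * u) (2 * v)) (subT (2 * u) (2 * v)))
    (Tm.mul (subT (2 * u + 1) (2 * v + 1)) (subT (2 * u + 1) (2 * v + 1)))) Tm.one

theorem holds_leF (x : ℕ → ℝ) (u v : ℕ) : (leF u v).Holds x ↔ len (vx x u) (vx x v) ≤ 1 := by
  rw [len_le_one]
  simp only [leF, Fm.Holds, Tm.eval, subT, vx]
  constructor <;> intro h <;> nlinarith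

/-- The list of conditions. -/
def conds (G : Inst) : List Fm :=
  ((G.1 ++ G.2.1).flatMap fun u => (G.1 ++ G.2.1).map fun v => if u = v then tt else neF u v) ++
  ((G.1.flatMap fun a => G.2.1.flatMap fun b => (G.1 ++ G.2.1).map fun w =>
    if w = a ∨ w = b then tt else avF a b w) ++
  (G.1.flatMap fun a => G.2.1.map fun b => if (a, b) ∈ G.2.2 then leF a b else
    Fm.not (leF a b)))

theorem conds_iff (G : Inst) (x : ℕ → ℝ) :
    (∀ φ ∈ conds G, φ.Holds x) ↔ Realizes G (vx x) := by
  unfold conds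
  constructor
  · intro h
    refine ⟨?_, ?_, ?_⟩
    · intro u hu v hv huv
      by_contra hne
      have := h _ (List.mem_append.2 (Or.inl
        (List.mem_flatMap.2 ⟨u, hu, List.mem_map.2 ⟨v, hv, rfl⟩⟩)))
      rw [if_neg hne, holds_neF] at this
      exact this huv
    · intro a ha b hb w hw h1 h2
      have := h _ (List.mem_append.2 (Or.inr (List.mem_append.2 (Or.inl
        (List.mem_flatMap.2 ⟨a, ha, List.mem_flatMap.2 ⟨b, hb, List.mem_map.2 ⟨w, hw, rfl⟩⟩⟩)))))
      rw [if_neg (by rintro (h3 | h3); exacts [h1 h3, h2 h3]), holds_avF] at this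
      exact this
    · intro a ha b hb
      have := h _ (List.mem_append.2 (Or.inr (List.mem_append.2 (Or.inr
        (List.mem_flatMap.2 ⟨a, ha, List.mem_map.2 ⟨b, hb, rfl⟩⟩)))))
      split_ifs at this with h1
      · rw [holds_leF] at this
        exact ⟨fun _ => this, fun _ => h1⟩
      · simp only [Fm.Holds, holds_leF] at this
        exact ⟨fun h2 => absurd h2 h1, fun h2 => absurd h2 this⟩
  · rintro ⟨h1, h2, h3⟩ φ hφ
    rw [List.mem_append, List.mem_append, List.mem_flatMap, List.mem_flatMap,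
      List.mem_flatMap] at hφ
    rcases hφ with ⟨u, hu, hφ⟩ | ⟨a, ha, hφ⟩ | ⟨a, ha, hφ⟩
    · obtain ⟨v, hv, rfl⟩ := List.mem_map.1 hφ
      split_ifs with h
      · exact holds_tt x
      · rw [holds_neF]
        exact fun h3 => h (h1 u hu v hv h3)
    · obtain ⟨b, hb, hφ⟩ := List.mem_flatMap.1 hφ
      obtain ⟨w, hw, rfl⟩ := List.mem_map.1 hφ
      split_ifs with h
      · exact holds_tt x
      · push Not at h
        rw [holds_avF]
        exact h2 a ha b hb w hw h.1 h.2
    · obtain ⟨b, hb, rfl⟩ := List.mem_map.1 hφ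
      split_ifs with h
      · rw [holds_leF]
        exact (h3 a ha b hb).1 h
      · simp only [Fm.Holds, holds_leF]
        exact fun h4 => h ((h3 a ha b hb).2 h4)

/-- The test for instances. -/
def instB (G : Inst) : Bool :=
  (G.1.all fun a => !decide (a ∈ G.2.1)) &&
    G.2.2.all fun e => decide (e.1 ∈ G.1) && decide (e.2 ∈ G.2.1)

theorem instB_iff (G : Inst) : instB G = true ↔ IsInst G := by
  unfold instB IsInst
  simp only [List.all_eq_true, decide_eq_true_eq, Bool.and_eq_true, Bool.not_eq_true',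
    decide_eq_false_iff_not]

/-- The existential sentence. -/
def form (G : Inst) : Fm := if instB G = true then conj (conds G) else ff

theorem form_correct (G : Inst) : LongShortBipartite G ↔ ETR (form G) := by
  unfold form LongShortBipartite
  rw [← instB_iff]
  split_ifs with h
  · unfold ETR
    simp only [holds_conj, conds_iff]
    constructor
    · rintro ⟨-, p, hp⟩
      refine ⟨fun n => if n % 2 = 0 then (p (n / 2)).1 else (p (n / 2)).2, ?_⟩
      have hv : vx (fun n => if n % 2 = 0 then (p (n / 2)).1 else (p (n / 2)).2) = p := by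
        funext v
        unfold vx
        have e1 : 2 * v % 2 = 0 := by omega
        have e2 : (2 * v + 1) % 2 = 1 := by omega
        have e3 : 2 * v / 2 = v := by omega
        have e4 : (2 * v + 1) / 2 = v := by omega
        simp only [e1, e2, e3, e4]
        rfl
      rw [hv]
      exact hp
    · rintro ⟨x, hx⟩
      exact ⟨h, vx x, hx⟩
  · constructor
    · rintro ⟨h1, -⟩
      exact absurd h1 h
    · intro h1
      exact absurd h1 not_etr_ff

section

variable {α : Type} [TEnc α]

theorem poly_leF {u v : α → ℕ} (hu : Poly u) (hv : Poly v) : Poly (fun a => leF (u a) (v a)) := by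
  have h1 := poly_subT (poly_two hu) (poly_two hv)
  have h2 := poly_subT (Poly.succ (poly_two hu)) (Poly.succ (poly_two hv))
  exact poly_le (poly_tadd (poly_tmul h1 h1) (poly_tmul h2 h2)) (Poly.const _)

end

theorem poly_conds : Poly conds := by
  have hA : Poly (fun G : Inst => G.1) := Poly.fst Poly.id
  have hB : Poly (fun G : Inst => G.2.1) := Poly.fst (Poly.snd Poly.id)
  have hV : Poly (fun G : Inst => G.1 ++ G.2.1) := Poly.append hA hB
  have hS : Poly (fun G : Inst => G.2.2) := Poly.snd (Poly.snd Poly.id)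
  refine Poly.append ?_ (Poly.append ?_ ?_)
  · refine Poly.flatMap (F := fun (G : Inst) (u : ℕ) => (G.1 ++ G.2.1).map fun v =>
      if u = v then tt else neF u v) hV ?_
    refine Poly.map (F := fun (p : Inst × ℕ) (v : ℕ) => if p.2 = v then tt else neF p.2 v)
      (hV.comp (Poly.fst Poly.id)) ?_
    exact Poly.ite (Poly.decide_eq (Poly.snd (Poly.fst Poly.id)) (Poly.snd Poly.id))
      (Poly.const _) (poly_neF (Poly.snd (Poly.fst Poly.id)) (Poly.snd Poly.id))
  · refine Poly.flatMap (F := fun (G : Inst) (a : ℕ) => G.2.1.flatMap fun b =>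
      (G.1 ++ G.2.1).map fun w => if w = a ∨ w = b then tt else avF a b w) hA ?_
    refine Poly.flatMap (F := fun (p : Inst × ℕ) (b : ℕ) =>
      (p.1.1 ++ p.1.2.1).map fun w => if w = p.2 ∨ w = b then tt else avF p.2 b w)
      (hB.comp (Poly.fst Poly.id)) ?_
    refine Poly.map (F := fun (q : (Inst × ℕ) × ℕ) (w : ℕ) => if w = q.1.2 ∨ w = q.2 then tt
      else avF q.1.2 q.2 w) (hV.comp (Poly.fst (Poly.fst Poly.id))) ?_
    have a : Poly (fun q : ((Inst × ℕ) × ℕ) × ℕ => q.1.1.2) :=
      Poly.snd (Poly.fst (Poly.fst Poly.id))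
    have b : Poly (fun q : ((Inst × ℕ) × ℕ) × ℕ => q.1.2) := Poly.snd (Poly.fst Poly.id)
    have w : Poly (fun q : ((Inst × ℕ) × ℕ) × ℕ => q.2) := Poly.snd Poly.id
    exact Poly.ite (Poly.decide_or (Poly.decide_eq w a) (Poly.decide_eq w b))
      (Poly.const _) (poly_avF a b w)
  · refine Poly.flatMap (F := fun (G : Inst) (a : ℕ) => G.2.1.map fun b =>
      if (a, b) ∈ G.2.2 then leF a b else Fm.not (leF a b)) hA ?_
    refine Poly.map (F := fun (p : Inst × ℕ) (b : ℕ) =>
      if (p.2, b) ∈ p.1.2.2 then leF p.2 b else Fm.not (leF p.2 b))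
      (hB.comp (Poly.fst Poly.id)) ?_
    have a : Poly (fun q : (Inst × ℕ) × ℕ => q.1.2) := Poly.snd (Poly.fst Poly.id)
    have b : Poly (fun q : (Inst × ℕ) × ℕ => q.2) := Poly.snd Poly.id
    have S : Poly (fun q : (Inst × ℕ) × ℕ => q.1.1.2.2) := hS.comp (Poly.fst (Poly.fst Poly.id))
    exact Poly.ite ((Poly.decide_mem (Poly.pair a b) S).congr fun _ => decide_eq_decide.2 Iff.rfl)
      (poly_leF a b) (poly_not (poly_leF a b))

theorem poly_instB : Poly instB := by
  have hA : Poly (fun G : Inst => G.1) := Poly.fst Poly.id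
  have hS : Poly (fun G : Inst => G.2.2) := Poly.snd (Poly.snd Poly.id)
  refine Poly.and (Poly.all (p := fun (G : Inst) (a : ℕ) => !decide (a ∈ G.2.1)) hA ?_)
    (Poly.all (p := fun (G : Inst) (e : ℕ × ℕ) => decide (e.1 ∈ G.1) && decide (e.2 ∈ G.2.1))
      hS ?_)
  · exact Poly.not (Poly.decide_mem (Poly.snd Poly.id) (Poly.fst (Poly.snd (Poly.fst Poly.id))))
  · exact Poly.and (Poly.decide_mem (Poly.fst (Poly.snd Poly.id)) (Poly.fst (Poly.fst Poly.id)))
      (Poly.decide_mem (Poly.snd (Poly.snd Poly.id)) (Poly.fst (Poly.snd (Poly.fst Poly.id))))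

theorem poly_form : Poly form := by
  unfold form
  exact Poly.ite (Poly.decide_bool poly_instB) (poly_conj poly_conds) (Poly.const _)

theorem mem : InER (lang LongShortBipartite) := H670R2.InER.of_poly poly_form form_correct

theorem complete : ERComplete (lang LongShortBipartite) := ⟨mem, hard⟩

end Pool.Agent.NPC.Y604LS
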