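import Pool.Agent.Y604.LS.Geo
import Pool.Agent.H625R2.BallFin
import Pool.Agent.H606R2.GPP.SegF

/-!
# The reduction from strict sign matrices
-/

namespace Pool.Agent.Y604.LS

open Pool.Agent.NPC Pool.Agent.NPC.ER.Pat Pool.Agent.NPC.ER.GPP Filter
open Pool.Agent.NPC.ER (ERHard)
open scoped Topology

/-- The short edges from the row `i` of a sign matrix. -/
def rowS (M : List (List Bool)) (i : ℕ) : List (ℕ × ℕ) :=
  ((List.range (2 * wid M)).filter fun k => ent M i (k / 2) == decide (k % 2 = 0)).map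
    fun k => (2 * i, 2 * k + 1)

/-- The instance of a sign matrix: a vertex for every row, two vertices for every column. -/
def redM (M : List (List Bool)) : Inst :=
  ((List.range M.length).map (fun i => 2 * i),
    (List.range (2 * wid M)).map (fun k => 2 * k + 1), (List.range M.length).flatMap (rowS M))

theorem mem_A {M : List (List Bool)} {v : ℕ} :
    v ∈ (redM M).1 ↔ ∃ i < M.length, v = 2 * i := by
  simp only [redM, List.mem_map, List.mem_range]
  exact ⟨fun ⟨i, h, e⟩ => ⟨i, h, e.symm⟩, fun ⟨i, h, e⟩ => ⟨i, h, e.symm⟩⟩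

theorem mem_B {M : List (List Bool)} {v : ℕ} :
    v ∈ (redM M).2.1 ↔ ∃ k < 2 * wid M, v = 2 * k + 1 := by
  simp only [redM, List.mem_map, List.mem_range]
  exact ⟨fun ⟨i, h, e⟩ => ⟨i, h, e.symm⟩, fun ⟨i, h, e⟩ => ⟨i, h, e.symm⟩⟩

theorem mem_S {M : List (List Bool)} {i k : ℕ} :
    (2 * i, 2 * k + 1) ∈ (redM M).2.2 ↔
      i < M.length ∧ k < 2 * wid M ∧ ent M i (k / 2) = decide (k % 2 = 0) := by
  simp only [redM, rowS, List.mem_flatMap, List.mem_range, List.mem_map, List.mem_filter,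
    Prod.mk.injEq, beq_iff_eq]
  constructor
  · rintro ⟨i', h1, k', ⟨h2, h3⟩, h4, h5⟩
    obtain rfl : i' = i := by omega
    obtain rfl : k' = k := by omega
    exact ⟨h1, h2, h3⟩
  · rintro ⟨h1, h2, h3⟩
    exact ⟨i, h1, k, ⟨h2, h3⟩, rfl, rfl⟩

theorem isInst_redM (M : List (List Bool)) : IsInst (redM M) := by
  constructor
  · intro a ha hb
    obtain ⟨i, _, rfl⟩ := mem_A.1 ha
    obtain ⟨k, _, h⟩ := mem_B.1 hb
    omega
  · intro e he
    simp only [redM, rowS, List.mem_flatMap, List.mem_range, List.mem_map, List.mem_filter] at he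
    obtain ⟨i, h1, k, ⟨h2, _⟩, rfl⟩ := he
    exact ⟨mem_A.2 ⟨i, h1, rfl⟩, mem_B.2 ⟨k, h2, rfl⟩⟩

theorem len_le_one {p q : ℝ × ℝ} : len p q ≤ 1 ↔ (p.1 - q.1) ^ 2 + (p.2 - q.2) ^ 2 ≤ 1 := by
  unfold len
  rw [Real.sqrt_le_iff]
  norm_num

/-- **Soundness**: the bisectors of the pairs of centres realize the sign matrix. -/
theorem SR_of_realizes {m : ℕ} {M : List (List Bool)} (hM : Rect m M) {p : ℕ → ℝ × ℝ}
    (h : Realizes (redM M) p) : SR 3 M := by
  let q : ℕ → ℝ × ℝ := fun k => p (2 * k + 1)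
  refine ⟨fun i => ![1, (p (2 * i)).1, (p (2 * i)).2], fun j =>
    ![((q (2 * j + 1)).1 ^ 2 + (q (2 * j + 1)).2 ^ 2) - ((q (2 * j)).1 ^ 2 + (q (2 * j)).2 ^ 2),
      2 * ((q (2 * j)).1 - (q (2 * j + 1)).1), 2 * ((q (2 * j)).2 - (q (2 * j + 1)).2)],
    fun i hi j hj => ?_⟩
  have hjw : j < wid M := by rwa [← wid_eq hM hi]
  have hA : 2 * i ∈ (redM M).1 := mem_A.2 ⟨i, hi, rfl⟩
  have hB0 : 2 * (2 * j) + 1 ∈ (redM M).2.1 := mem_B.2 ⟨2 * j, by omega, rfl⟩
  have hB1 : 2 * (2 * j + 1) + 1 ∈ (redM M).2.1 := mem_B.2 ⟨2 * j + 1, by omega, rfl⟩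
  have h0 := h.short _ hA _ hB0
  have h1 := h.short _ hA _ hB1
  rw [mem_S, len_le_one] at h0 h1
  have e0 : 2 * j / 2 = j := by omega
  have e1 : (2 * j + 1) / 2 = j := by omega
  have e2 : 2 * j % 2 = 0 := by omega
  have e3 : ¬ (2 * j + 1) % 2 = 0 := by omega
  rw [e0, ent_eq hi hj] at h0
  rw [e1, ent_eq hi hj] at h1
  simp only [e2, e3, decide_true, decide_false, hi, true_and] at h0 h1
  have hk0 : 2 * j < 2 * wid M := by omega
  have hk1 : 2 * j + 1 < 2 * wid M := by omega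
  simp only [hk0, hk1, true_and] at h0 h1
  simp only [Matrix.vec3_dotProduct, Matrix.cons_val, q]
  cases hb : M[i][j] with
  | true =>
    rw [hb] at h0 h1
    have k0 := h0.1 rfl
    have k1 : ¬ _ := fun hh => absurd (h1.2 hh) (by decide)
    push Not at k1
    simp only [sgn, if_true]
    nlinarith
  | false =>
    rw [hb] at h0 h1
    have k0 := h1.1 rfl
    have k1 : ¬ _ := fun hh => absurd (h0.2 hh) (by decide)
    push Not at k1
    simp only [sgn, Bool.false_eq_true, if_false]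
    nlinarith

/-- **Completeness**. -/
theorem realizes_of_SRN {m : ℕ} {M : List (List Bool)} (hM : Rect m M) (h : SRN 2 M) :
    ∃ p, Realizes (redM M) p := by
  obtain ⟨y, η, c₀, hη, hy⟩ := h
  -- unit normals
  obtain ⟨x, y, a, b, c, hab, hy⟩ : ∃ x y a b c : ℕ → ℝ, (∀ j, a j ^ 2 + b j ^ 2 = 1) ∧
      ∀ i < M.length, ∀ j < wid M, 0 < sgn (ent M i j) * (c j + (x i * a j + y i * b j)) := by
    let r : ℕ → ℝ := fun j => Real.sqrt (η j 0 ^ 2 + η j 1 ^ 2)
    have hr : ∀ j, 0 < r j := fun j => Real.sqrt_pos.2 (by have := hη j; positivity)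
    have hr2 : ∀ j, r j ^ 2 = η j 0 ^ 2 + η j 1 ^ 2 := fun j => Real.sq_sqrt (by positivity)
    refine ⟨fun i => y i 0, fun i => y i 1, fun j => η j 0 / r j, fun j => η j 1 / r j,
      fun j => c₀ j / r j, fun j => ?_, fun i hi j hj => ?_⟩
    · rw [div_pow, div_pow, ← add_div, ← hr2, div_self]
      have := hr j
      positivity
    · have hjw : j < M[i].length := by rwa [wid_eq hM hi]
      have h1 := hy i hi j hjw
      rw [ent_eq hi hjw]
      have e : c₀ j / r j + (y i 0 * (η j 0 / r j) + y i 1 * (η j 1 / r j)) =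
          (c₀ j + ∑ k ∈ Finset.range 2, y i k * η j k) / r j := by
        rw [Finset.sum_range_succ, Finset.sum_range_one]
        ring
      rw [e, ← mul_div_assoc]
      exact div_pos h1 (hr j)
  -- the disks
  obtain ⟨ε, hε⟩ := (ev_all (F := 𝓝[>] (0 : ℝ)) (n := M.length) (P := fun i ε => ∀ j < wid M,
      0 < sgn (ent M i j) * (1 - ((ε * x i - (1 - ε * c j) * a j) ^ 2 +
        (ε * y i - (1 - ε * c j) * b j) ^ 2)) ∧
      0 < -sgn (ent M i j) * (1 - ((ε * x i + (1 + ε * c j) * a j) ^ 2 +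
        (ε * y i + (1 + ε * c j) * b j) ^ 2))) (fun i hi => ev_all fun j hj =>
          ev_disk _ _ _ _ _ (hab j) _ (hy i hi j hj))).exists
  let p0 : ℕ → ℝ × ℝ := fun v => if v % 2 = 0 then (ε * x (v / 2), ε * y (v / 2)) else
    if (v / 2) % 2 = 0 then ((1 - ε * c (v / 4)) * a (v / 4), (1 - ε * c (v / 4)) * b (v / 4)) else
      (-((1 + ε * c (v / 4)) * a (v / 4)), -((1 + ε * c (v / 4)) * b (v / 4)))
  have q0 : ∀ i, p0 (2 * i) = (ε * x i, ε * y i) := by
    intro i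
    have h1 : 2 * i % 2 = 0 := by omega
    have h2 : 2 * i / 2 = i := by omega
    simp only [p0, if_pos h1, h2]
  have q1 : ∀ j, p0 (2 * (2 * j) + 1) = ((1 - ε * c j) * a j, (1 - ε * c j) * b j) := by
    intro j
    have h1 : ¬ (2 * (2 * j) + 1) % 2 = 0 := by omega
    have h2 : (2 * (2 * j) + 1) / 2 % 2 = 0 := by omega
    have h3 : (2 * (2 * j) + 1) / 4 = j := by omega
    simp only [p0, if_neg h1, if_pos h2, h3]
  have q2 : ∀ j, p0 (2 * (2 * j + 1) + 1) =
      (-((1 + ε * c j) * a j), -((1 + ε * c j) * b j)) := by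
    intro j
    have h1 : ¬ (2 * (2 * j + 1) + 1) % 2 = 0 := by omega
    have h2 : ¬ (2 * (2 * j + 1) + 1) / 2 % 2 = 0 := by omega
    have h3 : (2 * (2 * j + 1) + 1) / 4 = j := by omega
    simp only [p0, if_neg h1, if_neg h2, h3]
  -- the signs at `p0`
  have hsg : ∀ i < M.length, ∀ k < 2 * wid M, 0 < sgn (ent M i (k / 2) == decide (k % 2 = 0)) *
      (1 - (((p0 (2 * i)).1 - (p0 (2 * k + 1)).1) ^ 2 +
        ((p0 (2 * i)).2 - (p0 (2 * k + 1)).2) ^ 2)) := by
    intro i hi k hk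
    obtain ⟨j, rfl | rfl⟩ : ∃ j, k = 2 * j ∨ k = 2 * j + 1 := ⟨k / 2, by omega⟩
    · have h1 := (hε i hi j (by omega)).1
      have e0 : 2 * j / 2 = j := by omega
      have e2 : 2 * j % 2 = 0 := by omega
      rw [q0, q1, e0, e2]
      simpa using h1
    · have h1 := (hε i hi j (by omega)).2
      have e0 : (2 * j + 1) / 2 = j := by omega
      have e2 : (2 * j + 1) % 2 = 1 := by omega
      rw [q0, q2, e0, e2]
      have e3 : sgn (ent M i j == decide (1 = 0)) = -sgn (ent M i j) := by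
        cases ent M i j <;> simp [sgn]
      rw [e3]
      simpa using h1
  -- perturbation
  have hev : ∀ᶠ δ in 𝓝[>] (0 : ℝ), ∀ i < M.length, ∀ k < 2 * wid M,
      0 < sgn (ent M i (k / 2) == decide (k % 2 = 0)) *
      (1 - (((pert p0 δ (2 * i)).1 - (pert p0 δ (2 * k + 1)).1) ^ 2 +
        ((pert p0 δ (2 * i)).2 - (pert p0 δ (2 * k + 1)).2) ^ 2)) := by
    refine ev_all fun i hi => ev_all fun k hk => ?_
    have h1 : Tendsto (fun δ : ℝ => sgn (ent M i (k / 2) == decide (k % 2 = 0)) *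
      (1 - (((pert p0 δ (2 * i)).1 - (pert p0 δ (2 * k + 1)).1) ^ 2 +
        ((pert p0 δ (2 * i)).2 - (pert p0 δ (2 * k + 1)).2) ^ 2))) (𝓝[>] (0 : ℝ))
        (𝓝 (sgn (ent M i (k / 2) == decide (k % 2 = 0)) *
      (1 - (((pert p0 0 (2 * i)).1 - (pert p0 0 (2 * k + 1)).1) ^ 2 +
        ((pert p0 0 (2 * i)).2 - (pert p0 0 (2 * k + 1)).2) ^ 2)))) := by
      apply Tendsto.mono_left _ nhdsWithin_le_nhds
      apply Continuous.tendsto
      simp only [pert]
      fun_prop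
    have h2 : ∀ v, pert p0 0 v = p0 v := fun v => by simp [pert]
    rw [h2, h2] at h1
    exact h1.eventually (lt_mem_nhds (hsg i hi k hk))
  set n := 2 * M.length + 4 * wid M + 2 with hn
  obtain ⟨δ, hδ, hd, hD⟩ := (hev.and (ev_gp p0 n)).exists
  have hlt : ∀ v ∈ (redM M).1 ++ (redM M).2.1, v < n := by
    intro v hv
    rcases List.mem_append.1 hv with hv | hv
    · obtain ⟨i, h1, rfl⟩ := mem_A.1 hv; omega
    · obtain ⟨k, h1, rfl⟩ := mem_B.1 hv; omega
  refine ⟨pert p0 δ, ⟨?_, ?_, ?_⟩⟩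
  · intro u hu v hv huv
    by_contra hne
    exact hd u (hlt u hu) v (hlt v hv) hne huv
  · intro u hu v hv w hw h1 h2 h3
    have hne : u ≠ v := fun e => (isInst_redM M).1 u hu (e ▸ hv)
    exact hD u (hlt u (List.mem_append_left _ hu)) v (hlt v (List.mem_append_right _ hv)) w
      (hlt w hw) hne h1.symm h2.symm (mem_seg_iff.1 h3).1
  · intro u hu v hv
    obtain ⟨i, hi, rfl⟩ := mem_A.1 hu
    obtain ⟨k, hk, rfl⟩ := mem_B.1 hv
    rw [mem_S, len_le_one]
    have h1 := hδ i hi k hk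
    constructor
    · rintro ⟨-, -, h2⟩
      rw [h2] at h1
      simp only [beq_self_eq_true, sgn, if_true] at h1
      linarith
    · intro h2
      refine ⟨hi, hk, ?_⟩
      by_contra h3
      have h4 : (ent M i (k / 2) == decide (k % 2 = 0)) = false := by simpa using h3
      rw [h4] at h1
      simp only [sgn, Bool.false_eq_true, if_false] at h1
      linarith

end Pool.Agent.Y604.LS
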